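import Pool.Agent.H20.AC.Win
import Pool.Agent.H20.AC.FMh

/-!
# The graphs with windows
-/

set_option autoImplicit false

open MvPolynomial Pool.Agent.N684.BK

namespace Pool.Agent.H20.AC

theorem card_lin' {F : Type} [Field F] [Fintype F] {M : Type} [AddCommGroup M] [Module F M]
    [Finite M] (φ : M →ₗ[F] F) (hφ : Function.Surjective φ) (α : F) :
    Nat.card {a : M // φ a = α} * Fintype.card F = Nat.card M := by
  rw [← card_lin φ hφ]
  congr 1
  obtain ⟨δ, hδ⟩ := hφ α
  refine Nat.card_congr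
    { toFun := fun a => ⟨a.1 - δ, by rw [map_sub, a.2, hδ, sub_self]⟩
      invFun := fun a => ⟨a.1 + δ, by rw [map_add, a.2, hδ, zero_add]⟩
      left_inv := fun a => Subtype.ext (sub_add_cancel _ _)
      right_inv := fun a => Subtype.ext (add_sub_cancel_right _ _) }

theorem card_win {F : Type} [Field F] [Fintype F] {M : Type} [AddCommGroup M] [Module F M]
    [Finite M] (φ : M →ₗ[F] F) (hφ : Function.Surjective φ) (S : Finset F) :
    Nat.card {a : M // φ a ∈ S} * Fintype.card F = S.card * Nat.card M := by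
  classical
  have e : {a : M // φ a ∈ S} ≃ (α : S) × {a : M // φ a = α} :=
    { toFun := fun a => ⟨⟨φ a.1, a.2⟩, ⟨a.1, rfl⟩⟩
      invFun := fun a => ⟨a.2.1, by rw [a.2.2]; exact a.1.2⟩
      left_inv := fun a => rfl
      right_inv := by
        rintro ⟨⟨α, hα⟩, ⟨a, ha⟩⟩
        have ha' : φ a = α := ha
        subst ha'
        rfl }
  rw [Nat.card_congr e, Nat.card_sigma, Finset.sum_mul]
  rw [Finset.sum_congr rfl fun (α : S) _ => card_lin' φ hφ (α : F)]
  rw [Finset.sum_const, Finset.card_univ, Fintype.card_coe, smul_eq_mul]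

theorem ALG (hCOM : S_COM) (hCIRC : S_CIRC) (hCLEAN : S_CLEAN) (hKST : S_KST)
    (s e k h t : ℕ) (hs : 2 ≤ s) (he : 5 * s ≤ 4 * e) (hk6 : 6 ≤ k)
    (hk : 2 * (s ^ 2 + 2 + k + k * s) ≤ k * (k + 3) * (k + 2)) (hh : 1 ≤ h)
    (hT : h ^ s * (2 ^ (s + e) * (s ^ 2 + s + 2) ^ (2 * k)) < t) : ∃ p₀ : ℕ, ∀ p : ℕ, p₀ ≤ p →
    p.Prime → h * p ^ (2 * s - 1) ≤ 4 * SimpleGraph.extremalNumber (4 * p ^ s)
      (completeBipartiteGraph (Fin s) (Fin t)) := by
  classical
  obtain ⟨C₁, hC₁⟩ := bad_card' hCOM s e k h (by omega) hk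
  have hcirc : ∀ j : Fin (s + 1), ∃ C : ℕ,
      ∀ (F : Type) [Field F] [Fintype F] (W : Submodule F (MvPolynomial (Fin (s + e + k)) F)),
      1 ∈ W → (∀ a, X a ∈ W) → (∀ a b, X a * X b ∈ W) →
      Nat.card {A : Fin (j : ℕ) → Fin (s + e + k) → F // Circ W A} * Fintype.card F ^ 2 ≤
        C * Fintype.card F ^ (((j : ℕ) - 1) * (e + k) + s) := fun j =>
    hCIRC s e k j hs he hk6 (by omega)
  choose C₂ hC₂ using hcirc
  obtain ⟨q₀, hq₀⟩ := FMh.FM s (e + k) (max C₁ (∑ j, C₂ j)) h hs hh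
  refine ⟨max q₀ h, ?_⟩
  intro p hp hpp
  have : Fact p.Prime := ⟨hpp⟩
  set T := 2 ^ (s + e) * (s ^ 2 + s + 2) ^ (2 * k) with hTdef
  let F := ZMod p
  have hcF : Fintype.card F = p := ZMod.card p
  have hph : h ≤ p := le_trans (le_max_right _ _) hp
  obtain ⟨S, -, hS⟩ := Finset.exists_subset_card_eq (s := (Finset.univ : Finset F)) (n := h)
    (by rw [Finset.card_univ, hcF]; exact hph)
  set D := s ^ 2 + s + 2 with hD
  let wt := wD s e k D
  have hwt : ∀ i, 1 ≤ wt i := by
    intro i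
    show 1 ≤ wD s e k D i
    unfold wD
    split_ifs
    · omega
    · exact le_rfl
  have hwt2 : ∀ i, wt i ≤ D := by
    intro i
    show wD s e k D i ≤ D
    unfold wD
    split_ifs
    · exact le_rfl
    · omega
  let W := PW F wt (2 * D)
  let H := PW F wt (D ^ 2)
  have hWf : Module.Finite F W := PW_finite _ hwt _
  have hHf : Module.Finite F H := PW_finite _ hwt _
  have fW : Finite W := finite_sub W
  have fH : Finite H := finite_sub H
  have hWH : W ≤ H := by
    refine PW_mono ?_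
    rw [hD]
    nlinarith [Nat.zero_le (s ^ 2 + s)]
  have h1W : 1 ∈ W := one_mem_PW _ _
  have hXW : ∀ a, X a ∈ W := fun a => X_mem_PW _ _ a (by have := hwt2 a; omega)
  have hXXW : ∀ a b, X a * X b ∈ W := fun a b => XX_mem_PW _ _ a b (by
    have := hwt2 a
    have := hwt2 b
    omega)
  let n := Module.finrank F W
  let b : Module.Basis (Fin n) F W := Module.finBasis F W
  let Pt := Fin (s + e + k) → F
  let Ω₁ := (Fin e → W) × (Fin k → H)
  let Ω₂ := Fin n → Fin n → F
  let Ci := (j : Fin (s + 1)) × {A : Fin (j : ℕ) → Fin (s + e + k) → F // Circ W A}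
  have i1 : Fintype Ω₁ := Fintype.ofFinite Ω₁
  let i3 : Fintype Ci := inferInstanceAs (Fintype
    ((j : Fin (s + 1)) × {A : Fin (j : ℕ) → Fin (s + e + k) → F // Circ W A}))
  have key := hq₀ p (le_trans (le_max_left _ _) hp) Pt Ω₁ Ω₂ Ci (fun z => VV z)
    (fun a x y => bil (fun l => (b l : MvPolynomial (Fin (s + e + k)) F)) a x y ∈ S)
    (fun c => Set.range c.2.1) (fun z a => Bad' (s := s) T S b z a) ?_ ?_ ?_ ?_ ?_ ?_ ?_
  · obtain ⟨z, a, hnb, V₀, hV₀, hcl, hV₀c, hE⟩ := key
    refine hE.trans (Nat.mul_le_mul_left 4 ?_)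
    have hTt : h ^ s * T < t := hT
    have hst : s ≤ t := by
      have h1 : s < 2 ^ s := Nat.lt_two_pow_self
      have h2 : 2 ^ s ≤ 2 ^ (s + e) := Nat.pow_le_pow_right (by norm_num) (by omega)
      have h3 : 2 ^ (s + e) ≤ T := by
        rw [hTdef]
        exact Nat.le_mul_of_pos_right _ (Nat.pow_pos (by omega))
      have h4 : T ≤ h ^ s * T := Nat.le_mul_of_pos_left _ (Nat.pow_pos (by omega))
      omega
    refine hKST s t (4 * p ^ s) Pt V₀
      (fun x y => bil (fun l => (b l : MvPolynomial (Fin (s + e + k)) F)) a x y ∈ S)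
      (by omega) hst (Set.toFinite _) (by omega) ?_
    intro A hAinj hAV
    have hInd : Ind W A := by
      refine hCLEAN F (s + e + k) s W V₀ ?_ A hAinj hAV
      intro j hj A' hA' hr
      exact hcl ⟨⟨j, by omega⟩, ⟨A', hA'⟩⟩ hr
    have hnb' : ∀ α : Fin s → F, (∀ i, α i ∈ S) → ¬ (T < Set.ncard {y : Fin (s + e + k) → F | y ∈ VV z ∧
        ∀ i, bil (fun l => (b l : MvPolynomial (Fin (s + e + k)) F)) a (A i) y = α i} ∨
        T < Set.ncard {y : Fin (s + e + k) → F | y ∈ VV z ∧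
        ∀ i, bil (fun l => (b l : MvPolynomial (Fin (s + e + k)) F)) a y (A i) = α i}) :=
      fun α hα h => hnb ⟨A, hInd, hAV.trans hV₀, α, hα, h⟩
    push Not at hnb'
    have hPat : (Fintype.piFinset fun _ : Fin s => S).card = h ^ s := by
      rw [Fintype.card_piFinset_const, hS]
    have hcount : ∀ g : (Fin (s + e + k) → F) → Fin s → F,
        (∀ α : Fin s → F, (∀ i, α i ∈ S) → Set.ncard {y : Fin (s + e + k) → F | y ∈ VV z ∧
          ∀ i, g y i = α i} ≤ T) →
        Set.ncard {y : Fin (s + e + k) → F | y ∈ V₀ ∧ ∀ i, g y i ∈ S} < t := by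
      intro g hg
      refine lt_of_le_of_lt ?_ hTt
      have hsub : {y : Fin (s + e + k) → F | y ∈ V₀ ∧ ∀ i, g y i ∈ S} ⊆
          ⋃ α ∈ (Fintype.piFinset fun _ : Fin s => S),
            {y : Fin (s + e + k) → F | y ∈ VV z ∧ ∀ i, g y i = α i} := by
        rintro y ⟨h1, h2⟩
        rw [Set.mem_iUnion₂]
        exact ⟨g y, Fintype.mem_piFinset.2 h2, hV₀ h1, fun i => rfl⟩
      refine (Set.ncard_le_ncard hsub (Set.toFinite _)).trans ?_
      refine (Finset.set_ncard_biUnion_le _ _).trans ?_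
      refine (Finset.sum_le_sum fun α hα => hg α (Fintype.mem_piFinset.1 hα)).trans ?_
      rw [Finset.sum_const, hPat, smul_eq_mul]
    exact ⟨hcount _ fun α hα => (hnb' α hα).1, hcount _ fun α hα => (hnb' α hα).2⟩
  · show Fintype.card (Fin (s + e + k) → F) = _
    rw [Fintype.card_fun, Fintype.card_fin, hcF]
    congr 1
    ring
  · intro x
    have h1 := card_pair (e := e) (k := k) (ind_one (ι := Unit) h1W (fun _ => x)) hWH
    rw [Fintype.card_unit, one_mul, hcF, Nat.card_eq_fintype_card (α := Ω₁)] at h1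
    rw [← h1]
    congr 1
    refine Nat.card_congr (Equiv.subtypeEquivRight fun z => ?_)
    exact ⟨fun h _ => h, fun h => h ()⟩
  · intro x y hxy
    have h1 := card_pair (e := e) (k := k) (ind_two h1W hXW hxy) hWH
    rw [Fintype.card_fin, hcF, Nat.card_eq_fintype_card (α := Ω₁)] at h1
    rw [← h1]
    congr 1
    refine Nat.card_congr (Equiv.subtypeEquivRight fun z => ?_)
    constructor
    · rintro ⟨h2, h3⟩ i
      fin_cases i
      · exact h2
      · exact h3
    · intro h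
      exact ⟨h 0, h 1⟩
  · intro x y
    have h1 := card_win (bilL (fun l => (b l : MvPolynomial (Fin (s + e + k)) F)) x y)
      (bilL_surj h1W b x y) S
    rw [hcF, hS, Nat.card_eq_fintype_card (α := Ω₂)] at h1
    exact h1
  · rintro ⟨j, A, hA⟩
    rcases Nat.eq_zero_or_pos (j : ℕ) with hj | hj
    · exfalso
      apply hA.2.1
      intro v
      refine ⟨0, ?_⟩
      funext i
      exact absurd i.2 (by omega)
    · exact ⟨A ⟨0, hj⟩, ⟨⟨0, hj⟩, rfl⟩⟩
  · have hq : 0 < Fintype.card F := Fintype.card_pos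
    have h2 : ∀ j : Fin (s + 1), p ^ 2 * ∑ A : {A : Fin (j : ℕ) → Fin (s + e + k) → F // Circ W A},
        Nat.card {z : Ω₁ // Set.range A.1 ⊆ VV z} ≤ C₂ j * p ^ s * Fintype.card Ω₁ := by
      intro j
      have h3 := hC₂ j F W h1W hXW hXXW
      have h4 : Fintype.card F ^ (((j : ℕ) - 1) * (e + k)) *
          ∑ A : {A : Fin (j : ℕ) → Fin (s + e + k) → F // Circ W A},
          Nat.card {z : Ω₁ // Set.range A.1 ⊆ VV z} ≤
          Nat.card {A : Fin (j : ℕ) → Fin (s + e + k) → F // Circ W A} * Nat.card Ω₁ := by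
        rw [Finset.mul_sum]
        refine (Finset.sum_le_sum fun A _ => card_circ (e := e) (k := k) hWH A.2).trans ?_
        rw [Finset.sum_const, Finset.card_univ, smul_eq_mul, Nat.card_eq_fintype_card (α :=
          {A : Fin (j : ℕ) → Fin (s + e + k) → F // Circ W A})]
      have hpos : 0 < Fintype.card F ^ (((j : ℕ) - 1) * (e + k)) := Nat.pow_pos hq
      refine Nat.le_of_mul_le_mul_left ?_ hpos
      rw [hcF] at h3 h4 ⊢
      rw [Nat.card_eq_fintype_card (α := Ω₁)] at h4
      calc _ = p ^ 2 * (p ^ (((j : ℕ) - 1) * (e + k)) *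
            ∑ A : {A : Fin (j : ℕ) → Fin (s + e + k) → F // Circ W A},
            Nat.card {z : Ω₁ // Set.range A.1 ⊆ VV z}) := by ring
        _ ≤ p ^ 2 * (Nat.card {A : Fin (j : ℕ) → Fin (s + e + k) → F // Circ W A} *
            Fintype.card Ω₁) := Nat.mul_le_mul_left _ h4
        _ = (Nat.card {A : Fin (j : ℕ) → Fin (s + e + k) → F // Circ W A} * p ^ 2) *
            Fintype.card Ω₁ := by ring
        _ ≤ (C₂ j * p ^ (((j : ℕ) - 1) * (e + k) + s)) * Fintype.card Ω₁ :=
            Nat.mul_le_mul_right _ h3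
        _ = _ := by rw [pow_add]; ring
    have h5 : ∑ c : Ci, Nat.card {z : Ω₁ // Set.range c.2.1 ⊆ VV z} =
        ∑ j : Fin (s + 1), ∑ A : {A : Fin (j : ℕ) → Fin (s + e + k) → F // Circ W A},
          Nat.card {z : Ω₁ // Set.range A.1 ⊆ VV z} := by
      exact Fintype.sum_sigma (ι := Fin (s + 1)) (α := fun j : Fin (s + 1) =>
        {A : Fin (j : ℕ) → Fin (s + e + k) → F // Circ W A})
        (fun c => Nat.card {z : Ω₁ // Set.range c.2.1 ⊆ VV z})
    rw [h5, Finset.mul_sum]
    calc _ ≤ ∑ j : Fin (s + 1), C₂ j * p ^ s * Fintype.card Ω₁ :=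
          Finset.sum_le_sum fun j _ => h2 j
      _ = (∑ j : Fin (s + 1), C₂ j) * p ^ s * Fintype.card Ω₁ := by
          rw [Finset.sum_mul, Finset.sum_mul]
      _ ≤ _ := by
          gcongr
          exact le_max_right _ _
  · have h1 := hC₁ F S hS W H rfl rfl n b
    rw [hcF, Nat.card_eq_fintype_card (α := (Fin e → W) × (Fin k → H)),
      Nat.card_eq_fintype_card (α := Fin n → Fin n → F), ← mul_assoc] at h1
    refine h1.trans ?_
    gcongr
    exact le_max_left _ _

end Pool.Agent.H20.AC
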