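import Pool.Agent.H20.G.R_pool_sql_team_seeded_63374d34.N353.BK.FIN
import Pool.Agent.H20.G.R_seed8.Helper923.PNT

/-!
# All numbers of vertices, with absolute constants
-/

set_option autoImplicit false

open Filter Topology

namespace Pool.Agent.H20.AC

open Pool.Agent.N353.BK.FIN (ex_mono)

/-- primes in short intervals -/
theorem prime_near (δ : ℝ) (h0 : 0 < δ) (h1 : δ ≤ 1) : ∀ᶠ x : ℝ in atTop, ∃ p : ℕ, p.Prime ∧
    (p : ℝ) ≤ x ∧ x < (1 + δ) * p := by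
  have hT := Pool.Agent.Helper923.PNT.theta_div_tendsto
  have e1 : ∀ᶠ x : ℝ in atTop, 1 - δ / 4 < Chebyshev.theta x / x :=
    hT.eventually_const_lt (by linarith)
  have e2 : ∀ᶠ x : ℝ in atTop, Chebyshev.theta x / x < 1 + δ / 4 :=
    hT.eventually_lt_const (by linarith)
  have e3 : ∀ᶠ x : ℝ in atTop, Chebyshev.theta (x / (1 + δ)) / (x / (1 + δ)) < 1 + δ / 4 :=
    (tendsto_id.atTop_div_const (by linarith : (0:ℝ) < 1 + δ)).eventually e2
  filter_upwards [e1, e3, eventually_gt_atTop 0] with x h2 h3 hx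
  have hd : 0 < 1 + δ := by linarith
  have hy : 0 < x / (1 + δ) := by positivity
  rw [lt_div_iff₀ hx] at h2
  rw [div_lt_iff₀ hy] at h3
  have h4 : Chebyshev.theta (x / (1 + δ)) < Chebyshev.theta x := by
    refine h3.trans (lt_of_le_of_lt ?_ h2)
    rw [mul_div_assoc', div_le_iff₀ hd]
    nlinarith [mul_nonneg hx.le (mul_nonneg h0.le (by linarith : 0 ≤ 2 - δ))]
  by_contra hcon
  push Not at hcon
  refine absurd h4 (not_lt.2 (le_of_eq ?_))
  unfold Chebyshev.theta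
  refine Finset.sum_congr ?_ fun _ _ => rfl
  ext p
  simp only [Finset.mem_filter, Finset.mem_Ioc, and_assoc]
  refine and_congr_right fun hp0 => ?_
  constructor
  · rintro ⟨hp1, hp2⟩
    refine ⟨?_, hp2⟩
    by_contra h5
    have h6 : x / (1 + δ) < p := by
      rw [not_le] at h5
      exact (Nat.floor_lt hy.le).1 h5
    have h7 := hcon p hp2 ((Nat.le_floor_iff hx.le).1 hp1)
    rw [div_lt_iff₀ hd] at h6
    linarith
  · rintro ⟨hp1, hp2⟩
    exact ⟨hp1.trans (Nat.floor_le_floor (div_le_self hx.le (by linarith))), hp2⟩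

theorem FINh (s t h : ℕ) (hs : 2 ≤ s) (ht : 0 < t) (hyp : ∃ p₀ : ℕ, ∀ p : ℕ, p₀ ≤ p → p.Prime →
    h * p ^ (2 * s - 1) ≤ 4 * SimpleGraph.extremalNumber (4 * p ^ s)
      (completeBipartiteGraph (Fin s) (Fin t))) : ∃ n₀ : ℕ, ∀ n : ℕ, n₀ ≤ n →
    (1 / 128 : ℝ) * h * (n : ℝ) ^ (2 - 1 / (s : ℝ)) ≤
      (SimpleGraph.extremalNumber n (completeBipartiteGraph (Fin s) (Fin t)) : ℝ) := by
  obtain ⟨p₀, hp₀⟩ := hyp
  have hs0 : 0 < s := by omega
  have hsR : (0 : ℝ) < s := by exact_mod_cast hs0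
  have hsR2 : (2 : ℝ) ≤ s := by exact_mod_cast hs
  set δ : ℝ := 1 / (8 * s) with hδ
  have hδ0 : 0 < δ := by positivity
  have hδ1 : δ ≤ 1 := by
    rw [hδ, div_le_one (by positivity)]
    linarith
  have hev := (prime_near δ hδ0 hδ1).and ((eventually_ge_atTop (1 / δ : ℝ)).and
    (eventually_ge_atTop (2 * p₀ + 2 : ℝ)))
  obtain ⟨X, hX⟩ := eventually_atTop.1 hev
  obtain ⟨M, hM⟩ := exists_nat_ge X
  refine ⟨4 * (M + 1) ^ s, fun n hn => ?_⟩
  have hexp0 : (0 : ℝ) ≤ 2 - 1 / (s : ℝ) := by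
    have : 1 / (s : ℝ) ≤ 1 := by
      rw [div_le_one hsR]
      exact_mod_cast hs0
    linarith
  have hexp2 : 2 - 1 / (s : ℝ) ≤ 2 := by
    have : 0 ≤ 1 / (s : ℝ) := by positivity
    linarith
  have hpow : ∀ x : ℝ, 0 ≤ x → (x ^ s) ^ (2 - 1 / (s : ℝ)) = x ^ (2 * s - 1) := by
    intro x hx
    rw [← Real.rpow_natCast x s, ← Real.rpow_mul hx, ← Real.rpow_natCast x (2 * s - 1)]
    congr 1
    rw [Nat.cast_sub (by omega)]
    push_cast
    field_simp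
  obtain ⟨m, hm1, hm2⟩ : ∃ m : ℕ, 4 * m ^ s ≤ n ∧ n < 4 * (m + 1) ^ s := by
    refine ⟨Nat.findGreatest (fun k => 4 * k ^ s ≤ n) n, ?_, ?_⟩
    · exact Nat.findGreatest_spec (P := fun k => 4 * k ^ s ≤ n) (Nat.zero_le n) (by
        rw [zero_pow (by omega)]
        omega)
    · by_contra hcon
      rw [not_lt] at hcon
      have h1 : Nat.findGreatest (fun k => 4 * k ^ s ≤ n) n + 1 ≤ n := by
        refine le_trans ?_ hcon
        have := Nat.le_self_pow (by omega : s ≠ 0) (Nat.findGreatest (fun k => 4 * k ^ s ≤ n) n + 1)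
        omega
      exact Nat.findGreatest_is_greatest (Nat.lt_succ_self _) h1 hcon
  have hMm : M ≤ m := by
    by_contra hcon
    have h1 : m + 1 ≤ M + 1 := by omega
    have h2 : 4 * (m + 1) ^ s ≤ 4 * (M + 1) ^ s :=
      Nat.mul_le_mul_left 4 (Nat.pow_le_pow_left h1 s)
    omega
  have hMmR : X ≤ (m : ℝ) := hM.trans (by exact_mod_cast hMm)
  obtain ⟨⟨p, hp, hpm, hmp⟩, hm3, hm4⟩ := hX m hMmR
  have hpm' : p ≤ m := by exact_mod_cast hpm
  have hpp : p₀ ≤ p := by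
    have h1 : (m : ℝ) < 2 * p := by
      have hp0 : (0 : ℝ) ≤ p := Nat.cast_nonneg _
      nlinarith
    have h2 : (p₀ : ℝ) ≤ p := by linarith
    exact_mod_cast h2
  have hp0 : (0 : ℝ) < p := by exact_mod_cast hp.pos
  set ex := SimpleGraph.extremalNumber n (completeBipartiteGraph (Fin s) (Fin t)) with hex
  have hex0 : (0 : ℝ) ≤ ex := by positivity
  have h1 := hp₀ p hpp hp
  have h2 : SimpleGraph.extremalNumber (4 * p ^ s) (completeBipartiteGraph (Fin s) (Fin t)) ≤ ex :=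
    ex_mono hs0 ht ((Nat.mul_le_mul_left 4 (Nat.pow_le_pow_left hpm' s)).trans hm1)
  have h3 : (h : ℝ) * (p : ℝ) ^ (2 * s - 1) ≤ 4 * (ex : ℝ) := by
    have h4 : h * p ^ (2 * s - 1) ≤ 4 * ex := h1.trans (Nat.mul_le_mul_left 4 h2)
    exact_mod_cast h4
  have hm0 : (0 : ℝ) < m := by
    have : (0 : ℝ) < 1 / δ := by positivity
    linarith
  have h5 : ((m : ℝ) + 1) ≤ (1 + δ) ^ 2 * p := by
    have h6 : (1 : ℝ) ≤ δ * m := by
      rw [div_le_iff₀ hδ0] at hm3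
      linarith
    nlinarith
  have h6 : ((1 + δ) ^ 2) ^ (2 * s - 1) ≤ 2 := by
    have h7 : 1 + δ ≤ Real.exp δ := by
      have := Real.add_one_le_exp δ
      linarith
    have h8 : ((1 + δ) ^ 2) ^ (2 * s - 1) ≤ ((Real.exp δ) ^ 2) ^ (2 * s - 1) := by
      gcongr
    refine h8.trans ?_
    rw [← Real.exp_nat_mul, ← Real.exp_nat_mul]
    have h9 : ((2 * s - 1 : ℕ) : ℝ) * (((2 : ℕ) : ℝ) * δ) ≤ 1 / 2 := by
      rw [Nat.cast_sub (by omega), hδ]
      push_cast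
      rw [show (2 * (s : ℝ) - 1) * (2 * (1 / (8 * s))) = (2 * s - 1) / (4 * s) by field_simp; ring,
        div_le_iff₀ (by positivity)]
      linarith
    refine (Real.exp_le_exp.2 h9).trans ?_
    have h10 : Real.exp (1 / 2) ^ 2 = Real.exp 1 := by
      rw [← Real.exp_nat_mul]; norm_num
    have h11 := Real.exp_one_lt_d9
    nlinarith [Real.exp_pos (1 / 2 : ℝ)]
  have h7 : (n : ℝ) ≤ 4 * (((m : ℝ) + 1) ^ s) := by exact_mod_cast hm2.le
  have h8 : (n : ℝ) ^ (2 - 1 / (s : ℝ)) ≤ 32 * (p : ℝ) ^ (2 * s - 1) := by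
    calc (n : ℝ) ^ (2 - 1 / (s : ℝ)) ≤ (4 * (((m : ℝ) + 1) ^ s)) ^ (2 - 1 / (s : ℝ)) :=
          Real.rpow_le_rpow (by positivity) h7 hexp0
      _ = (4 : ℝ) ^ (2 - 1 / (s : ℝ)) * ((m : ℝ) + 1) ^ (2 * s - 1) := by
          rw [Real.mul_rpow (by norm_num) (by positivity), hpow _ (by positivity)]
      _ ≤ (4 : ℝ) ^ (2 : ℝ) * ((1 + δ) ^ 2 * p) ^ (2 * s - 1) := by
          have : (4 : ℝ) ^ (2 - 1 / (s : ℝ)) ≤ (4 : ℝ) ^ (2 : ℝ) :=
            Real.rpow_le_rpow_of_exponent_le (by norm_num) hexp2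
          gcongr
      _ = 16 * (((1 + δ) ^ 2) ^ (2 * s - 1) * (p : ℝ) ^ (2 * s - 1)) := by
          rw [mul_pow, Real.rpow_two]
          norm_num
      _ ≤ 16 * (2 * (p : ℝ) ^ (2 * s - 1)) := by gcongr
      _ = _ := by ring
  have hh0 : (0 : ℝ) ≤ h := Nat.cast_nonneg _
  calc (1 / 128 : ℝ) * h * (n : ℝ) ^ (2 - 1 / (s : ℝ)) ≤
        (1 / 128 : ℝ) * h * (32 * (p : ℝ) ^ (2 * s - 1)) := by gcongr
    _ = (1 / 4 : ℝ) * (h * (p : ℝ) ^ (2 * s - 1)) := by ring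
    _ ≤ (1 / 4 : ℝ) * (4 * ex) := by gcongr
    _ = ex := by ring

end Pool.Agent.H20.AC
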