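import Pool.Agent.H20.G.R_pool_sql_team_seeded_63374d34.N353.BK.FIN

/-!
# The bound of Kővári, Sós and Turán for large numbers of vertices
-/

set_option autoImplicit false

open Finset

namespace Pool.Agent.H20.AC

open Pool.Agent.W834.NG (NoK)
open Pool.Agent.N353.BK.FIN (noK_of_free)

theorem codeg_lt {V : Type} [Fintype V] [DecidableEq V] {G : SimpleGraph V} [DecidableRel G.Adj]
    {s t : ℕ} (hG : NoK G s t) (A : Finset V) (hA : A.card = s) :
    (univ.filter (fun v => A ⊆ G.neighborFinset v)).card < t := by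
  by_contra hcon
  push Not at hcon
  obtain ⟨B, hB, hBt⟩ := Finset.exists_subset_card_eq hcon
  apply hG
  let ea := A.equivFin.trans (finCongr hA)
  let eb := B.equivFin.trans (finCongr hBt)
  refine ⟨fun i => (ea.symm i : V), fun j => (eb.symm j : V), ?_, ?_, ?_⟩
  · exact Subtype.val_injective.comp ea.symm.injective
  · exact Subtype.val_injective.comp eb.symm.injective
  · intro i j
    have h1 : A ⊆ G.neighborFinset (eb.symm j : V) := (Finset.mem_filter.1 (hB (eb.symm j).2)).2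
    have h2 := h1 (ea.symm i).2
    rw [SimpleGraph.mem_neighborFinset] at h2
    exact h2.symm

theorem count {V : Type} [Fintype V] [DecidableEq V] {G : SimpleGraph V} [DecidableRel G.Adj]
    {s t : ℕ} (ht : 1 ≤ t) (hG : NoK G s t) :
    ∑ v, (G.degree v).choose s ≤ (t - 1) * (Fintype.card V).choose s := by
  have h1 : ∀ v, (G.degree v).choose s =
      ∑ A ∈ powersetCard s (univ : Finset V), (if A ⊆ G.neighborFinset v then 1 else 0) := by
    intro v
    rw [← Finset.card_filter, ← SimpleGraph.card_neighborFinset_eq_degree, ← card_powersetCard]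
    congr 1
    ext A
    simp only [mem_powersetCard, mem_filter, subset_univ, true_and]
    tauto
  rw [Finset.sum_congr rfl fun v _ => h1 v, Finset.sum_comm]
  have h2 : ∀ A ∈ powersetCard s (univ : Finset V),
      ∑ v, (if A ⊆ G.neighborFinset v then 1 else 0) ≤ t - 1 := by
    intro A hA
    rw [← Finset.card_filter]
    have := codeg_lt hG A (mem_powersetCard.1 hA).2
    omega
  refine (Finset.sum_le_sum h2).trans ?_
  rw [Finset.sum_const, card_powersetCard, Finset.card_univ, smul_eq_mul, mul_comm]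

theorem kst (s t : ℕ) (hs : 2 ≤ s) (ht : 1 ≤ t) : ∃ n₀ : ℕ, ∀ n : ℕ, n₀ ≤ n →
    (SimpleGraph.extremalNumber n (completeBipartiteGraph (Fin s) (Fin t)) : ℝ) ≤
      (t : ℝ) ^ (1 / (s : ℝ)) * (n : ℝ) ^ (2 - 1 / (s : ℝ)) := by
  classical
  refine ⟨s ^ 2, fun n hn => ?_⟩
  have hsR : (2 : ℝ) ≤ s := by exact_mod_cast hs
  have hs0 : (0 : ℝ) < s := by linarith
  have htR : (1 : ℝ) ≤ t := by exact_mod_cast ht
  have hnR : (s : ℝ) ^ 2 ≤ n := by exact_mod_cast hn
  have hn0 : (0 : ℝ) < n := by nlinarith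
  have hn0' : 0 < n := by exact_mod_cast hn0
  set X : ℝ := (t : ℝ) ^ (1 / (s : ℝ)) * (n : ℝ) ^ (2 - 1 / (s : ℝ)) with hX
  have hX0 : 0 < X := by positivity
  have hXs : X ^ s = t * (n : ℝ) ^ (2 * s - 1) := by
    rw [hX, mul_pow, ← Real.rpow_natCast, ← Real.rpow_mul (by positivity),
      ← Real.rpow_natCast ((n : ℝ) ^ (2 - 1 / (s : ℝ))) s, ← Real.rpow_mul (by positivity),
      ← Real.rpow_natCast (n : ℝ) (2 * s - 1)]
    congr 1
    · rw [one_div, inv_mul_cancel₀ hs0.ne', Real.rpow_one]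
    · congr 1
      rw [Nat.cast_sub (by omega)]
      push_cast
      field_simp
  have hXn : (n : ℝ) * s ≤ X := by
    have h1 : (s : ℝ) ≤ (n : ℝ) ^ (1 / 2 : ℝ) := by
      have h2 : ((s : ℝ) ^ 2) ^ (1 / 2 : ℝ) ≤ (n : ℝ) ^ (1 / 2 : ℝ) :=
        Real.rpow_le_rpow (by positivity) hnR (by norm_num)
      rwa [← Real.rpow_natCast, ← Real.rpow_mul (by positivity), Nat.cast_ofNat,
        mul_one_div_cancel (by norm_num), Real.rpow_one] at h2
    have h3 : (n : ℝ) ^ (1 / 2 : ℝ) ≤ (n : ℝ) ^ (1 - 1 / (s : ℝ)) := by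
      refine Real.rpow_le_rpow_of_exponent_le ?_ ?_
      · exact_mod_cast hn0'
      · have : 1 / (s : ℝ) ≤ 1 / 2 := one_div_le_one_div_of_le (by norm_num) hsR
        linarith
    have h4 : (1 : ℝ) ≤ (t : ℝ) ^ (1 / (s : ℝ)) := Real.one_le_rpow htR (by positivity)
    have h5 : (n : ℝ) ^ (2 - 1 / (s : ℝ)) = n * (n : ℝ) ^ (1 - 1 / (s : ℝ)) := by
      rw [← Real.rpow_one_add' hn0.le (by
        have : 1 / (s : ℝ) ≤ 1 / 2 := one_div_le_one_div_of_le (by norm_num) hsR
        linarith)]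
      congr 1
      ring
    rw [hX, h5]
    calc (n : ℝ) * s ≤ n * (n : ℝ) ^ (1 - 1 / (s : ℝ)) := by
          gcongr
          exact h1.trans h3
      _ = 1 * (n * (n : ℝ) ^ (1 - 1 / (s : ℝ))) := (one_mul _).symm
      _ ≤ _ := by gcongr
  rw [← Fintype.card_fin n, SimpleGraph.extremalNumber_le_iff_of_nonneg _ hX0.le]
  intro G _ hG
  have h1 := count ht (noK_of_free hG)
  rw [Fintype.card_fin] at h1
  have h2 : ∑ v, (G.degree v + 1 - s) ^ s ≤ (t - 1) * n ^ s := by
    calc ∑ v, (G.degree v + 1 - s) ^ s ≤ ∑ v, s.factorial * (G.degree v).choose s := by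
          refine Finset.sum_le_sum fun v _ => ?_
          rw [← Nat.descFactorial_eq_factorial_mul_choose]
          exact Nat.pow_sub_le_descFactorial _ _
      _ = s.factorial * ∑ v, (G.degree v).choose s := (Finset.mul_sum _ _ _).symm
      _ ≤ s.factorial * ((t - 1) * n.choose s) := Nat.mul_le_mul_left _ h1
      _ = (t - 1) * (s.factorial * n.choose s) := by ring
      _ ≤ (t - 1) * n ^ s := by
          rw [← Nat.descFactorial_eq_factorial_mul_choose]
          exact Nat.mul_le_mul_left _ (Nat.descFactorial_le_pow _ _)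
  have h3 : ∑ v, ((G.degree v + 1 - s : ℕ) : ℝ) ^ s ≤ (t - 1) * (n : ℝ) ^ s := by
    have : ((∑ v, (G.degree v + 1 - s) ^ s : ℕ) : ℝ) ≤ (((t - 1) * n ^ s : ℕ) : ℝ) :=
      Nat.cast_le.2 h2
    push_cast [Nat.cast_sub ht] at this
    push_cast
    exact this
  obtain ⟨s', rfl⟩ : ∃ s', s = s' + 1 := ⟨s - 1, by omega⟩
  have h4 := pow_sum_div_card_le_sum_pow (s := (univ : Finset (Fin n)))
    (f := fun v => ((G.degree v + 1 - (s' + 1) : ℕ) : ℝ)) (fun v _ => Nat.cast_nonneg _) s'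
  rw [Finset.card_univ, Fintype.card_fin, div_le_iff₀ (by positivity)] at h4
  set Y : ℝ := ∑ v, ((G.degree v + 1 - (s' + 1) : ℕ) : ℝ) with hY
  have h5 : 2 * (#G.edgeFinset : ℝ) ≤ Y + n * (s' + 1) := by
    have h6 := G.sum_degrees_eq_twice_card_edges
    have h7 : ((∑ v, G.degree v : ℕ) : ℝ) = ((2 * #G.edgeFinset : ℕ) : ℝ) := by rw [h6]
    push_cast at h7
    rw [← h7, hY]
    have h8 : (n : ℝ) * (s' + 1) = ∑ _v : Fin n, ((s' : ℝ) + 1) := by
      rw [Finset.sum_const, Finset.card_univ, Fintype.card_fin, nsmul_eq_mul]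
    rw [h8, ← Finset.sum_add_distrib]
    refine Finset.sum_le_sum fun v _ => ?_
    have h9 : G.degree v ≤ (G.degree v + 1 - (s' + 1)) + (s' + 1) := by omega
    exact_mod_cast h9
  have h6 : Y ≤ X := by
    have h7 : Y ^ (s' + 1) ≤ X ^ (s' + 1) := by
      rw [hXs]
      refine h4.trans ?_
      calc _ ≤ ((t - 1) * (n : ℝ) ^ (s' + 1)) * (n : ℝ) ^ s' := by gcongr
        _ ≤ (t * (n : ℝ) ^ (s' + 1)) * (n : ℝ) ^ s' := by
            gcongr
            linarith
        _ = t * (n : ℝ) ^ (2 * (s' + 1) - 1) := by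
            rw [mul_assoc, ← pow_add]
            congr 2
            omega
    exact le_of_pow_le_pow_left₀ (by omega) hX0.le h7
  push_cast at hXn
  linarith

end Pool.Agent.H20.AC
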