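import Pool.Agent.H20.AC.Alg
import Pool.Agent.H20.AC.Fin
import Pool.Agent.H20.AC.Kst
import Pool.Agent.H20.G.R_pool_sql_team_seeded_63374d34.N684.BK.Low
import Pool.Agent.H20.G.R_pool_sql_team_seeded_63374d34.N684.BK.Top
import Pool.Agent.H20.G.R_pool_sql_team_seeded_1acbe0a2.Y684.ZL.Num

/-!
# Absolute constants in the Zarankiewicz problem
-/

set_option autoImplicit false

open Filter Topology

namespace Pool.Agent.H20.AC

open Pool.Agent.N684.BK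

/-- the threshold of the library -/
noncomputable def TR (s : ℕ) : ℝ :=
  (2 : ℝ) ^ (9 * (s : ℝ) / 4) * (s : ℝ) ^ (12 * (s : ℝ) ^ (2 / 3 : ℝ) + 38)

theorem COM : S_COM := by
  have hDIM := Pool.Agent.N769.BK.DIM.DIM
  have hMONO := Pool.Agent.N769.BK.DIM.MONO
  have hBEZ := Pool.Agent.N861.BK.BEZ.BEZ Pool.Agent.N769.BK.MULSUM.MUL
    Pool.Agent.N769.BK.MULSUM.SUM
  have hRCI := Pool.Agent.N136.BK.RCI.main hDIM hMONO hBEZ LOW Pool.Agent.N738.BK.RAT.PT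
  have hFE := Pool.Agent.N591.BK.FE.FE hDIM hMONO hBEZ LOW
  exact Pool.Agent.N678.BK.COM.main hMONO Pool.Agent.N415.BK.TOP.TOP
    Pool.Agent.N738.BK.RAT.RAT Pool.Agent.N684.BK.TR POS QU hRCI hFE Pool.Agent.N415.BK.TOP.FIB

theorem TR_le (s : ℕ) (hs : 2 ≤ s) : Pool.Agent.H20.AC.TR s ≤ Real.exp 76 ^ s := by
  have hsR : (2 : ℝ) ≤ s := by exact_mod_cast hs
  have hs0 : (0 : ℝ) < s := by linarith
  unfold Pool.Agent.H20.AC.TR
  have h1 : (2 : ℝ) ^ (9 * (s : ℝ) / 4) ≤ Real.exp (2 * s) := by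
    rw [Real.rpow_def_of_pos (by norm_num)]
    refine Real.exp_le_exp.2 ?_
    have := Real.log_two_lt_d9
    nlinarith
  have hlog : 0 ≤ Real.log s := Real.log_nonneg (by linarith)
  have h2 : Real.log s ≤ 3 * (s : ℝ) ^ (1 / 3 : ℝ) := by
    have h3 : Real.log ((s : ℝ) ^ (1 / 3 : ℝ)) = 1 / 3 * Real.log s := Real.log_rpow hs0 _
    have h4 := Real.log_le_sub_one_of_pos (x := (s : ℝ) ^ (1 / 3 : ℝ)) (by positivity)
    linarith
  have h3 : Real.log s ≤ s := by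
    have := Real.log_le_sub_one_of_pos hs0
    linarith
  have h4 : (s : ℝ) ^ (2 / 3 : ℝ) * (s : ℝ) ^ (1 / 3 : ℝ) = s := by
    rw [← Real.rpow_add hs0]
    norm_num
  have h5 : (s : ℝ) ^ (12 * (s : ℝ) ^ (2 / 3 : ℝ) + 38) ≤ Real.exp (74 * s) := by
    rw [Real.rpow_def_of_pos hs0]
    refine Real.exp_le_exp.2 ?_
    have h6 : 0 ≤ (s : ℝ) ^ (2 / 3 : ℝ) := by positivity
    have h7 : Real.log s * (12 * (s : ℝ) ^ (2 / 3 : ℝ)) ≤ 36 * s := by
      calc Real.log s * (12 * (s : ℝ) ^ (2 / 3 : ℝ)) ≤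
            (3 * (s : ℝ) ^ (1 / 3 : ℝ)) * (12 * (s : ℝ) ^ (2 / 3 : ℝ)) := by gcongr
        _ = 36 * ((s : ℝ) ^ (2 / 3 : ℝ) * (s : ℝ) ^ (1 / 3 : ℝ)) := by ring
        _ = 36 * s := by rw [h4]
    nlinarith
  calc _ ≤ Real.exp (2 * s) * Real.exp (74 * s) := by gcongr
    _ = Real.exp 76 ^ s := by
      rw [← Real.exp_add, ← Real.exp_nat_mul]
      congr 1
      ring

/-- the parameters -/
theorem params (s : ℕ) (hs : 2 ≤ s) : ∃ e k : ℕ, 5 * s ≤ 4 * e ∧ 6 ≤ k ∧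
    2 * (s ^ 2 + 2 + k + k * s) ≤ k * (k + 3) * (k + 2) ∧
    ((2 ^ (s + e) * (s ^ 2 + s + 2) ^ (2 * k) : ℕ) : ℝ) < Pool.Agent.H20.AC.TR s := by
  have hs0 : 0 < s := by omega
  have hsR : (2 : ℝ) ≤ s := by exact_mod_cast hs
  set r : ℝ := (s : ℝ) ^ (2 / 3 : ℝ) with hr
  have hr0 : 0 ≤ r := by positivity
  have hr3 : r ^ 3 = (s : ℝ) ^ 2 := by
    rw [hr, ← Real.rpow_natCast, ← Real.rpow_mul (by positivity), ← Real.rpow_natCast]
    norm_num
  set k : ℕ := max 6 ⌈2 * r⌉₊ with hk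
  have hk6 : 6 ≤ k := le_max_left _ _
  have hkr : 2 * r ≤ k := (Nat.le_ceil _).trans (by exact_mod_cast le_max_right _ _)
  have hk3 : 8 * s ^ 2 ≤ k ^ 3 := by
    have h1 : (2 * r) ^ 3 ≤ (k : ℝ) ^ 3 := by gcongr
    have h2 : (8 : ℝ) * (s : ℝ) ^ 2 ≤ (k : ℝ) ^ 3 := by
      rw [← hr3]
      calc (8 : ℝ) * r ^ 3 = (2 * r) ^ 3 := by ring
        _ ≤ _ := h1
    exact_mod_cast h2
  have hkup : (6 * k : ℝ) ≤ 12 * r + 36 := by
    have h1 : (k : ℝ) ≤ 2 * r + 6 := by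
      rw [hk, Nat.cast_max]
      apply max_le
      · push_cast
        linarith
      · have := (Nat.ceil_lt_add_one (by positivity : 0 ≤ 2 * r)).le
        linarith
    linarith
  have hcond : 2 * (s ^ 2 + 2 + k + k * s) ≤ k * (k + 3) * (k + 2) := by
    have h1 : 2 * (k * s) ≤ k ^ 2 + s ^ 2 := by
      have := two_mul_le_add_sq (k : ℤ) (s : ℤ)
      zify
      linarith
    nlinarith
  have he : 5 * s ≤ 4 * (s + (s + 3) / 4) := by omega
  refine ⟨s + (s + 3) / 4, k, he, hk6, hcond, ?_⟩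
  have h1 : s ^ 2 + s + 2 ≤ s ^ 3 := by nlinarith [Nat.mul_le_mul hs hs]
  have h2 : 2 ^ (s + (s + (s + 3) / 4)) * (s ^ 2 + s + 2) ^ (2 * k) ≤
      2 ^ (s + (s + (s + 3) / 4)) * s ^ (6 * k) := by
    calc 2 ^ (s + (s + (s + 3) / 4)) * (s ^ 2 + s + 2) ^ (2 * k) ≤
          2 ^ (s + (s + (s + 3) / 4)) * (s ^ 3) ^ (2 * k) := by gcongr
      _ = _ := by rw [← pow_mul]; ring_nf
  refine lt_of_le_of_lt (Nat.cast_le.2 h2) ?_
  have h3 : ((s + (s + (s + 3) / 4) : ℕ) : ℝ) ≤ 9 * (s : ℝ) / 4 + 1 := by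
    have h4 : 4 * (s + (s + (s + 3) / 4)) ≤ 9 * s + 3 := by omega
    have h5 : (4 : ℝ) * ((s + (s + (s + 3) / 4) : ℕ) : ℝ) ≤ 9 * s + 3 := by exact_mod_cast h4
    linarith
  rw [Nat.cast_mul, Nat.cast_pow, Nat.cast_pow]
  have h5 : ((2 : ℕ) : ℝ) ^ (s + (s + (s + 3) / 4)) ≤
      (2 : ℝ) ^ (9 * (s : ℝ) / 4) * 2 := by
    rw [← Real.rpow_natCast]
    calc ((2 : ℕ) : ℝ) ^ ((s + (s + (s + 3) / 4) : ℕ) : ℝ) ≤ (2 : ℝ) ^ (9 * (s : ℝ) / 4 + 1) := by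
          push_cast only
          exact Real.rpow_le_rpow_of_exponent_le (by norm_num) h3
      _ = (2 : ℝ) ^ (9 * (s : ℝ) / 4) * 2 := by
          rw [Real.rpow_add (by norm_num), Real.rpow_one]
  have h6 : ((s : ℕ) : ℝ) ^ (6 * k) ≤ (s : ℝ) ^ (12 * r + 36) := by
    rw [← Real.rpow_natCast]
    apply Real.rpow_le_rpow_of_exponent_le (by linarith)
    push_cast
    exact hkup
  have h7 : (s : ℝ) ^ (12 * r + 38) = (s : ℝ) ^ (12 * r + 36) * (s : ℝ) ^ 2 := by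
    rw [← Real.rpow_natCast, ← Real.rpow_add (by linarith)]
    congr 1
    push_cast
    ring
  have h8 : 0 < (s : ℝ) ^ (12 * r + 36) := by positivity
  have h9 : 0 < (2 : ℝ) ^ (9 * (s : ℝ) / 4) := by positivity
  unfold Pool.Agent.H20.AC.TR
  rw [← hr, h7]
  calc ((2 : ℕ) : ℝ) ^ (s + (s + (s + 3) / 4)) * ((s : ℕ) : ℝ) ^ (6 * k) ≤
        ((2 : ℝ) ^ (9 * (s : ℝ) / 4) * 2) * (s : ℝ) ^ (12 * r + 36) :=
        mul_le_mul h5 h6 (by positivity) (by positivity)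
    _ = (2 : ℝ) ^ (9 * (s : ℝ) / 4) * ((s : ℝ) ^ (12 * r + 36) * 2) := by ring
    _ < (2 : ℝ) ^ (9 * (s : ℝ) / 4) * ((s : ℝ) ^ (12 * r + 36) * (s : ℝ) ^ 2) := by
        have h10 : (2 : ℝ) < (s : ℝ) ^ 2 := by nlinarith
        gcongr

/-- large `t` -/
theorem rq (s t : ℕ) (hs : 2 ≤ s) (ht : Pool.Agent.H20.AC.TR s ≤ t) : ∃ n₀ : ℕ, ∀ n : ℕ, n₀ ≤ n →
    (1 / (256 * Real.exp 76)) * ((t : ℝ) ^ (1 / (s : ℝ)) * (n : ℝ) ^ (2 - 1 / (s : ℝ))) ≤
      (SimpleGraph.extremalNumber n (completeBipartiteGraph (Fin s) (Fin t)) : ℝ) := by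
  obtain ⟨e, k, he, hk6, hk, hT0⟩ := params s hs
  set T0 := 2 ^ (s + e) * (s ^ 2 + s + 2) ^ (2 * k) with hT0def
  have hT0pos : 1 ≤ T0 := Nat.mul_pos (Nat.pow_pos (by norm_num)) (Nat.pow_pos (by omega))
  have hT0t : T0 < t := by exact_mod_cast hT0.trans_le ht
  have hs0 : (0 : ℝ) < s := by exact_mod_cast (by omega : 0 < s)
  set P : ℕ → Prop := fun h => h ^ s * T0 < t with hP
  have : DecidablePred P := fun h => Nat.decLt _ _
  set h := Nat.findGreatest P t with hh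
  have hP1 : P 1 := by simpa [hP] using hT0t
  have h1 : 1 ≤ h := Nat.le_findGreatest (by omega) hP1
  have h2 : P h := Nat.findGreatest_spec (P := P) (by omega : 1 ≤ t) hP1
  have h3 : ¬ P (h + 1) := by
    intro h4
    have h5 : h + 1 ≤ t := by
      have h6 : (h + 1) ^ s * T0 < t := h4
      have h7 : h + 1 ≤ (h + 1) ^ s := Nat.le_self_pow (by omega) _
      have h8 : (h + 1) ^ s ≤ (h + 1) ^ s * T0 := Nat.le_mul_of_pos_right _ hT0pos
      omega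
    have := Nat.findGreatest_is_greatest (P := P) (n := t) (k := h + 1) (by omega) h5
    exact this h4
  have h4 : t ≤ (h + 1) ^ s * T0 := by
    by_contra hcon
    exact h3 (not_le.1 hcon)
  have h5 : (t : ℝ) ^ (1 / (s : ℝ)) ≤ 2 * h * Real.exp 76 := by
    have h6 : (t : ℝ) ≤ (((h : ℝ) + 1) * Real.exp 76) ^ s := by
      have h7 : (t : ℝ) ≤ ((h : ℝ) + 1) ^ s * T0 := by exact_mod_cast h4
      refine h7.trans ?_
      rw [mul_pow]
      gcongr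
      exact hT0.le.trans (TR_le s hs)
    have h8 : (t : ℝ) ^ (1 / (s : ℝ)) ≤ ((((h : ℝ) + 1) * Real.exp 76) ^ s) ^ (1 / (s : ℝ)) :=
      Real.rpow_le_rpow (Nat.cast_nonneg _) h6 (by positivity)
    rw [← Real.rpow_natCast, ← Real.rpow_mul (by positivity), mul_one_div_cancel hs0.ne',
      Real.rpow_one] at h8
    refine h8.trans ?_
    have h9 : (1 : ℝ) ≤ h := by exact_mod_cast h1
    have h10 := Real.exp_pos 76
    nlinarith
  have hALG := ALG COM (Pool.Agent.N392.BK.CIRC.CIRC Pool.Agent.N392.BK.ROWS.ROWS)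
    Pool.Agent.N615.BK.CLEAN.CLEAN Pool.Agent.N615.BK.CLEAN.KST s e k h t hs he hk6 hk h1 h2
  obtain ⟨n₀, hn₀⟩ := FINh s t h hs (by omega) hALG
  refine ⟨n₀, fun n hn => le_trans ?_ (hn₀ n hn)⟩
  have hE := Real.exp_pos 76
  have h6 : (1 / (256 * Real.exp 76)) * (t : ℝ) ^ (1 / (s : ℝ)) ≤ 1 / 128 * h := by
    calc (1 / (256 * Real.exp 76)) * (t : ℝ) ^ (1 / (s : ℝ)) ≤
          (1 / (256 * Real.exp 76)) * (2 * h * Real.exp 76) := by gcongr
      _ = 1 / 128 * h := by field_simp; norm_num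
  rw [← mul_assoc]
  gcongr

/-- the threshold is eventually smaller than the factorial -/
theorem TR_fact : ∃ S₀ : ℕ, ∀ s : ℕ, S₀ ≤ s → Pool.Agent.H20.AC.TR s ≤ ((s - 1).factorial : ℝ) := by
  have h1 := FloorSemiring.tendsto_pow_div_factorial_atTop (2 * Real.exp 76)
  have h2 := h1.eventually_le_const (by norm_num : (0 : ℝ) < 1)
  obtain ⟨S, hS⟩ := eventually_atTop.1 h2
  refine ⟨max S 2, fun s hs => ?_⟩
  have hs2 : 2 ≤ s := le_trans (le_max_right _ _) hs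
  have h3 := hS s (le_trans (le_max_left _ _) hs)
  rw [div_le_one (by positivity), mul_pow] at h3
  refine (TR_le s hs2).trans ?_
  obtain ⟨m, rfl⟩ : ∃ m, s = m + 1 := ⟨s - 1, by omega⟩
  rw [Nat.factorial_succ] at h3
  simp only [Nat.add_sub_cancel]
  push_cast at h3
  have h4 : ((m : ℝ) + 1) ≤ 2 ^ (m + 1) := by
    have : m + 1 < 2 ^ (m + 1) := Nat.lt_two_pow_self
    exact_mod_cast this.le
  have h5 : 0 < Real.exp 76 ^ (m + 1) := by positivity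
  have h6 : ((m : ℝ) + 1) * Real.exp 76 ^ (m + 1) ≤ ((m : ℝ) + 1) * (m.factorial : ℝ) := by
    refine le_trans ?_ h3
    gcongr
  exact le_of_mul_le_mul_left h6 (by positivity)

theorem main : ∃ c : ℝ, 0 < c ∧ ∀ s t : ℕ, 2 ≤ s →
    ((s - 1).factorial < t ∨ Pool.Agent.H20.AC.TR s ≤ t) → ∃ n₀ : ℕ, ∀ n : ℕ, n₀ ≤ n →
      c * ((t : ℝ) ^ (1 / (s : ℝ)) * (n : ℝ) ^ (2 - 1 / (s : ℝ))) ≤
        (SimpleGraph.extremalNumber n (completeBipartiteGraph (Fin s) (Fin t)) : ℝ) ∧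
      (SimpleGraph.extremalNumber n (completeBipartiteGraph (Fin s) (Fin t)) : ℝ) ≤
        (t : ℝ) ^ (1 / (s : ℝ)) * (n : ℝ) ^ (2 - 1 / (s : ℝ)) := by
  obtain ⟨S₀, hS₀⟩ := TR_fact
  have h1 : ∀ s : ℕ, ∃ c : ℝ, 0 < c ∧ (2 ≤ s → ∀ t n : ℕ, (s - 1).factorial < t → t ≤ n →
      c * ((t : ℝ) ^ (1 / (s : ℝ)) * (n : ℝ) ^ (2 - 1 / (s : ℝ))) ≤
        (SimpleGraph.extremalNumber n (completeBipartiteGraph (Fin s) (Fin t)) : ℝ)) := by
    intro s
    by_cases hs : 2 ≤ s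
    · obtain ⟨c, hc, h⟩ := Pool.Agent.Y684.ZL.main s hs
      refine ⟨c, hc, fun _ t n ht htn => ?_⟩
      rw [← mul_assoc]
      exact h t n ht htn
    · exact ⟨1, one_pos, fun h => absurd h hs⟩
  choose c hc0 hc using h1
  have h2 : ∀ S : ℕ, ∃ d : ℝ, 0 < d ∧ ∀ s < S, d ≤ c s := by
    intro S
    induction S with
    | zero => exact ⟨1, one_pos, fun s hs => absurd hs (by omega)⟩
    | succ S ih =>
      obtain ⟨d, hd, h⟩ := ih
      refine ⟨min d (c S), lt_min hd (hc0 S), fun s hs => ?_⟩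
      rcases Nat.lt_succ_iff_lt_or_eq.1 hs with h3 | h3
      · exact (min_le_left _ _).trans (h s h3)
      · rw [h3]
        exact min_le_right _ _
  obtain ⟨d, hd, hdc⟩ := h2 S₀
  refine ⟨min d (1 / (256 * Real.exp 76)), by positivity, fun s t hs hst => ?_⟩
  have ht1 : 1 ≤ t := by
    rcases hst with h | h
    · omega
    · have : (0 : ℝ) < t := by
        refine lt_of_lt_of_le ?_ h
        unfold Pool.Agent.H20.AC.TR
        have : (0 : ℝ) < s := by exact_mod_cast (by omega : 0 < s)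
        positivity
      exact_mod_cast this
  obtain ⟨n₁, hn₁⟩ := kst s t hs ht1
  have hlow : ∃ n₀ : ℕ, ∀ n : ℕ, n₀ ≤ n →
      min d (1 / (256 * Real.exp 76)) * ((t : ℝ) ^ (1 / (s : ℝ)) * (n : ℝ) ^ (2 - 1 / (s : ℝ))) ≤
        (SimpleGraph.extremalNumber n (completeBipartiteGraph (Fin s) (Fin t)) : ℝ) := by
    by_cases hTR : Pool.Agent.H20.AC.TR s ≤ t
    · obtain ⟨n₀, h⟩ := rq s t hs hTR
      refine ⟨n₀, fun n hn => le_trans ?_ (h n hn)⟩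
      gcongr
      exact min_le_right _ _
    · have hf : (s - 1).factorial < t := by tauto
      have hsS : s < S₀ := by
        by_contra hcon
        push Not at hcon
        refine hTR ((hS₀ s hcon).trans ?_)
        exact_mod_cast hf.le
      refine ⟨t, fun n hn => le_trans ?_ (hc s hs t n hf hn)⟩
      gcongr
      exact (min_le_left _ _).trans (hdc s hsS)
  obtain ⟨n₀, hn₀⟩ := hlow
  exact ⟨max n₀ n₁, fun n hn => ⟨hn₀ n (le_trans (le_max_left _ _) hn),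
    hn₁ n (le_trans (le_max_right _ _) hn)⟩⟩

end Pool.Agent.H20.AC
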