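import Pool.Agent.H20.G.R_pool_sql_team_seeded_63374d34.N684.BK.Alg4

/-!
# The bad event for the relations `f (x, y) ∈ S`
-/

set_option autoImplicit false

open MvPolynomial Pool.Agent.N684.BK

namespace Pool.Agent.H20.AC

theorem bil_add {F : Type} [Field F] {N n : ℕ} (b : Fin n → MvPolynomial (Fin N) F)
    (a a' : Fin n → Fin n → F) (x y : Fin N → F) :
    bil b (a + a') x y = bil b a x y + bil b a' x y :=
  (bilL b x y).map_add a a'

/-- the pattern `α` is not worse than the pattern `0` -/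
theorem badx' (hCOM : S_COM) (s e k : ℕ) (hs : 1 ≤ s)
    (hk : 2 * (s ^ 2 + 2 + k + k * s) ≤ k * (k + 3) * (k + 2)) :
    ∃ C : ℕ, ∀ (F : Type) [Field F] [Fintype F]
    (W H : Submodule F (MvPolynomial (Fin (s + e + k)) F)),
    W = PW F (wD s e k (s ^ 2 + s + 2)) (2 * (s ^ 2 + s + 2)) →
    H = PW F (wD s e k (s ^ 2 + s + 2)) ((s ^ 2 + s + 2) ^ 2) →
    ∀ (n : ℕ) (b : Module.Basis (Fin n) F W) (A : Fin s → Fin (s + e + k) → F), Ind W A →
    ∀ α : Fin s → F,
    Fintype.card F ^ (s ^ 2 + 2 + s * (e + k)) * Nat.card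
      {z : ((Fin e → W) × (Fin k → H)) × (Fin n → Fin n → F) // Set.range A ⊆ VV z.1 ∧
        2 ^ (s + e) * (s ^ 2 + s + 2) ^ (2 * k) < Set.ncard {y : Fin (s + e + k) → F |
          y ∈ VV z.1 ∧
          ∀ i, bil (fun l => (b l : MvPolynomial (Fin (s + e + k)) F)) z.2 (A i) y = α i}} ≤
      C * (Nat.card ((Fin e → W) × (Fin k → H)) * Nat.card (Fin n → Fin n → F)) := by
  obtain ⟨C, hC⟩ := badx hCOM s e k hs hk
  refine ⟨C, ?_⟩
  intro F _ _ W H hW hH n b A hA α
  refine le_trans (Nat.mul_le_mul_left _ (le_of_eq ?_)) (hC F W H hW hH n b A hA)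
  have h1W : (1 : MvPolynomial (Fin (s + e + k)) F) ∈ W := by rw [hW]; exact one_mem_PW _ _
  obtain ⟨δ, hδ⟩ := gm_surj b hA (fun i => α i • ⟨1, h1W⟩)
  have hδ' : ∀ (i : Fin s) (y : Fin (s + e + k) → F),
      bil (fun l => (b l : MvPolynomial (Fin (s + e + k)) F)) δ (A i) y = α i := by
    intro i y
    rw [← eval_gm b A δ i y, hδ]
    show eval y ((α i • (⟨1, h1W⟩ : W) : W) : MvPolynomial (Fin (s + e + k)) F) = α i
    rw [Submodule.coe_smul, smul_eval, map_one, mul_one]
  have hset : ∀ (z : ((Fin e → W) × (Fin k → H))) (a : Fin n → Fin n → F),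
      {y : Fin (s + e + k) → F | y ∈ VV z ∧
        ∀ i, bil (fun l => (b l : MvPolynomial (Fin (s + e + k)) F)) (a + δ) (A i) y = α i} =
      {y : Fin (s + e + k) → F | y ∈ VV z ∧
        ∀ i, bil (fun l => (b l : MvPolynomial (Fin (s + e + k)) F)) a (A i) y = 0} := by
    intro z a
    ext y
    simp only [Set.mem_ofPred_eq]
    refine and_congr_right fun _ => forall_congr' fun i => ?_
    rw [bil_add, hδ' i y]
    constructor
    · intro h
      have := congrArg (fun u => u - α i) h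
      simpa using this
    · intro h
      rw [h, zero_add]
  refine Nat.card_congr
    { toFun := fun z => ⟨(z.1.1, z.1.2 - δ), z.2.1, ?_⟩
      invFun := fun z => ⟨(z.1.1, z.1.2 + δ), z.2.1, ?_⟩
      left_inv := fun z => Subtype.ext (Prod.ext rfl (sub_add_cancel _ _))
      right_inv := fun z => Subtype.ext (Prod.ext rfl (add_sub_cancel_right _ _)) }
  · have h := z.2.2
    have h2 := hset z.1.1 (z.1.2 - δ)
    rw [sub_add_cancel] at h2
    rw [h2] at h
    exact h
  · have h := z.2.2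
    rw [← hset z.1.1 z.1.2] at h
    exact h

/-- the bad event -/
def Bad' {F : Type} [Field F] {N e k s n : ℕ} (T : ℕ) (S : Finset F)
    {W H : Submodule F (MvPolynomial (Fin N) F)} (b : Module.Basis (Fin n) F W)
    (z : (Fin e → W) × (Fin k → H)) (a : Fin n → Fin n → F) : Prop :=
  ∃ A : Fin s → Fin N → F, Ind W A ∧ Set.range A ⊆ VV z ∧ ∃ α : Fin s → F, (∀ i, α i ∈ S) ∧
    (T < Set.ncard {y : Fin N → F | y ∈ VV z ∧
      ∀ i, bil (fun l => (b l : MvPolynomial (Fin N) F)) a (A i) y = α i} ∨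
    T < Set.ncard {y : Fin N → F | y ∈ VV z ∧
      ∀ i, bil (fun l => (b l : MvPolynomial (Fin N) F)) a y (A i) = α i})

theorem bad_card' (hCOM : S_COM) (s e k h : ℕ) (hs : 1 ≤ s)
    (hk : 2 * (s ^ 2 + 2 + k + k * s) ≤ k * (k + 3) * (k + 2)) :
    ∃ C : ℕ, ∀ (F : Type) [Field F] [Fintype F] (S : Finset F), S.card = h → 
    ∀ (W H : Submodule F (MvPolynomial (Fin (s + e + k)) F)),
    W = PW F (wD s e k (s ^ 2 + s + 2)) (2 * (s ^ 2 + s + 2)) →
    H = PW F (wD s e k (s ^ 2 + s + 2)) ((s ^ 2 + s + 2) ^ 2) →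
    ∀ (n : ℕ) (b : Module.Basis (Fin n) F W),
    Fintype.card F ^ 2 * Nat.card
      {z : ((Fin e → W) × (Fin k → H)) × (Fin n → Fin n → F) //
        Bad' (s := s) (2 ^ (s + e) * (s ^ 2 + s + 2) ^ (2 * k)) S b z.1 z.2} ≤
      C * (Nat.card ((Fin e → W) × (Fin k → H)) * Nat.card (Fin n → Fin n → F)) := by
  classical
  obtain ⟨C, hC⟩ := badx' hCOM s e k hs hk
  refine ⟨2 * C * h ^ s, ?_⟩
  intro F _ _ S hS W H hW hH n b
  have hwt : ∀ i, 1 ≤ wD s e k (s ^ 2 + s + 2) i := by
    intro i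
    unfold wD
    split_ifs
    · omega
    · exact le_rfl
  have hWf : Module.Finite F W := by rw [hW]; exact PW_finite _ hwt _
  have hHf : Module.Finite F H := by rw [hH]; exact PW_finite _ hwt _
  have fW := finite_sub W
  have fH := finite_sub H
  have key := hC F W H hW hH n b
  set T := 2 ^ (s + e) * (s ^ 2 + s + 2) ^ (2 * k) with hT
  let Ω := ((Fin e → W) × (Fin k → H)) × (Fin n → Fin n → F)
  let P1 : (Fin s → Fin (s + e + k) → F) → (Fin s → F) → Ω → Prop := fun A α z =>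
      Set.range A ⊆ VV z.1 ∧
        T < Set.ncard {y : Fin (s + e + k) → F | y ∈ VV z.1 ∧
          ∀ i, bil (fun l => (b l : MvPolynomial (Fin (s + e + k)) F)) z.2 (A i) y = α i}
  let P2 : (Fin s → Fin (s + e + k) → F) → (Fin s → F) → Ω → Prop := fun A α z =>
      Set.range A ⊆ VV z.1 ∧
        T < Set.ncard {y : Fin (s + e + k) → F | y ∈ VV z.1 ∧
          ∀ i, bil (fun l => (b l : MvPolynomial (Fin (s + e + k)) F)) z.2 y (A i) = α i}
  have h1 : ∀ A, Ind W A → ∀ α, Fintype.card F ^ (s ^ 2 + 2 + s * (e + k)) *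
      Nat.card {z : Ω // P1 A α z} ≤
      C * (Nat.card ((Fin e → W) × (Fin k → H)) * Nat.card (Fin n → Fin n → F)) :=
    fun A hA α => key A hA α
  have h2 : ∀ A, Ind W A → ∀ α, Fintype.card F ^ (s ^ 2 + 2 + s * (e + k)) *
      Nat.card {z : Ω // P2 A α z} ≤
      C * (Nat.card ((Fin e → W) × (Fin k → H)) * Nat.card (Fin n → Fin n → F)) := by
    intro A hA α
    refine le_trans (le_of_eq ?_) (key A hA α)
    congr 1
    refine Nat.card_congr
      { toFun := fun z => ⟨(z.1.1, fun l m => z.1.2 m l), z.2.1, ?_⟩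
        invFun := fun z => ⟨(z.1.1, fun l m => z.1.2 m l), z.2.1, ?_⟩
        left_inv := fun z => rfl
        right_inv := fun z => rfl }
    · have h3 := z.2.2
      simp only [bil_swap]
      exact h3
    · have h3 := z.2.2
      show T < Set.ncard {y : Fin (s + e + k) → F | y ∈ VV z.1.1 ∧
          ∀ i, bil (fun l => (b l : MvPolynomial (Fin (s + e + k)) F))
            (fun l m => z.1.2 m l) y (A i) = α i}
      simp only [bil_swap]
      exact h3
  let Pat : Finset (Fin s → F) := Fintype.piFinset fun _ => S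
  have hPat : Pat.card = h ^ s := by
    show (Fintype.piFinset fun _ : Fin s => S).card = h ^ s
    rw [Fintype.card_piFinset_const, hS]
  let X : Finset ((Fin s → Fin (s + e + k) → F) × (Fin s → F)) :=
    (Finset.univ.filter (fun A => Ind W A)) ×ˢ Pat
  have h5 : Nat.card {z : Ω // Bad' (s := s) T S b z.1 z.2} ≤
      ∑ x ∈ X, (Nat.card {z : Ω // P1 x.1 x.2 z} + Nat.card {z : Ω // P2 x.1 x.2 z}) := by
    have hsub : {z : Ω | Bad' (s := s) T S b z.1 z.2} ⊆
        ⋃ x ∈ X, ({z : Ω | P1 x.1 x.2 z} ∪ {z : Ω | P2 x.1 x.2 z}) := by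
      rintro z ⟨A, hA, h3, α, hα, h4⟩
      rw [Set.mem_iUnion₂]
      refine ⟨(A, α), Finset.mem_product.2 ⟨Finset.mem_filter.2 ⟨Finset.mem_univ _, hA⟩,
        Fintype.mem_piFinset.2 hα⟩, ?_⟩
      rcases h4 with h4 | h4
      · exact Or.inl ⟨h3, h4⟩
      · exact Or.inr ⟨h3, h4⟩
    have h6 := Set.ncard_le_ncard hsub (Set.toFinite _)
    have h7 : Nat.card {z : Ω // Bad' (s := s) T S b z.1 z.2} =
        Set.ncard {z : Ω | Bad' (s := s) T S b z.1 z.2} := rfl
    rw [h7]
    refine h6.trans ?_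
    refine (Finset.set_ncard_biUnion_le _ _).trans ?_
    exact Finset.sum_le_sum fun A _ => Set.ncard_union_le _ _
  have hcardA : Fintype.card (Fin s → Fin (s + e + k) → F) =
      Fintype.card F ^ (s ^ 2 + s * (e + k)) := by
    rw [Fintype.card_fun, Fintype.card_fun, Fintype.card_fin, Fintype.card_fin, ← pow_mul]
    congr 1
    ring
  have hcardX : X.card ≤ Fintype.card F ^ (s ^ 2 + s * (e + k)) * h ^ s := by
    show ((Finset.univ.filter (fun A => Ind W A)) ×ˢ Pat).card ≤ _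
    rw [Finset.card_product, hPat, ← hcardA]
    exact Nat.mul_le_mul_right _ (Finset.card_le_univ _)
  have hq : 0 < Fintype.card F := Fintype.card_pos
  have hpos : 0 < Fintype.card F ^ (s ^ 2 + s * (e + k)) := Nat.pow_pos hq
  refine Nat.le_of_mul_le_mul_left ?_ hpos
  calc Fintype.card F ^ (s ^ 2 + s * (e + k)) * (Fintype.card F ^ 2 *
        Nat.card {z : Ω // Bad' (s := s) T S b z.1 z.2})
      = Fintype.card F ^ (s ^ 2 + 2 + s * (e + k)) *
        Nat.card {z : Ω // Bad' (s := s) T S b z.1 z.2} := by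
        rw [← mul_assoc, ← pow_add]
        congr 2
        ring
    _ ≤ Fintype.card F ^ (s ^ 2 + 2 + s * (e + k)) *
        ∑ x ∈ X, (Nat.card {z : Ω // P1 x.1 x.2 z} + Nat.card {z : Ω // P2 x.1 x.2 z}) :=
        Nat.mul_le_mul_left _ h5
    _ = ∑ x ∈ X, Fintype.card F ^ (s ^ 2 + 2 + s * (e + k)) *
        (Nat.card {z : Ω // P1 x.1 x.2 z} + Nat.card {z : Ω // P2 x.1 x.2 z}) :=
        Finset.mul_sum _ _ _
    _ ≤ ∑ x ∈ X, 2 * C *
        (Nat.card ((Fin e → W) × (Fin k → H)) * Nat.card (Fin n → Fin n → F)) := by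
        refine Finset.sum_le_sum fun x hx => ?_
        have hA := (Finset.mem_filter.1 (Finset.mem_product.1 hx).1).2
        have h8 := h1 x.1 hA x.2
        have h9 := h2 x.1 hA x.2
        rw [mul_add]
        calc _ ≤ C * (Nat.card ((Fin e → W) × (Fin k → H)) * Nat.card (Fin n → Fin n → F)) +
              C * (Nat.card ((Fin e → W) × (Fin k → H)) * Nat.card (Fin n → Fin n → F)) :=
              Nat.add_le_add h8 h9
          _ = _ := by ring
    _ = X.card * (2 * C *
        (Nat.card ((Fin e → W) × (Fin k → H)) * Nat.card (Fin n → Fin n → F))) := by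
        rw [Finset.sum_const, smul_eq_mul]
    _ ≤ (Fintype.card F ^ (s ^ 2 + s * (e + k)) * h ^ s) * (2 * C *
        (Nat.card ((Fin e → W) × (Fin k → H)) * Nat.card (Fin n → Fin n → F))) :=
        Nat.mul_le_mul_right _ hcardX
    _ = Fintype.card F ^ (s ^ 2 + s * (e + k)) * (2 * C * h ^ s *
        (Nat.card ((Fin e → W) × (Fin k → H)) * Nat.card (Fin n → Fin n → F))) := by
        ring

end Pool.Agent.H20.AC
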